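import Pool.Agent.H.MP_f74662.D

set_option autoImplicit false
open Set Function Topology Filter

namespace Pool.Agent.H.MP_fe23ac_gt

open Pool.Agent.H.MP_f74662 T

variable {X Y Z y y' y'' : Set T} {f g : T → T} {r : ℕ}

def Ep (X Y : Set T) : Prop := ∃ f, IsE f X Y ∧ ∀ x ∈ X, (f x = o ↔ x = o)

lemma Ep.trans (h : Ep X Y) (h' : Ep Y Z) : Ep X Z :=
  let ⟨_, h1, h2⟩ := h; let ⟨_, h3, h4⟩ := h'
  ⟨_, h1.comp h3, fun x hx => (h4 _ (h1.1 hx)).trans (h2 x hx)⟩

lemma Ep.sub (h : X ⊆ Y) : Ep X Y := ⟨id, ⟨h, fun x _ M _ => by simp⟩, fun _ _ => Iff.rfl⟩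

lemma em_ep (h : Em X Y) (h1 : o ∉ X) (h2 : o ∉ Y) : Ep X Y :=
  let ⟨f, hf⟩ := h
  ⟨f, hf, fun _ hx => ⟨fun e => absurd (e ▸ hf.1 hx) h2, fun e => absurd (e ▸ hx) h1⟩⟩

lemma ise_ep (h : IsE f X Y) (h1 : o ∈ X) (h2 : f o = o) : Ep X Y :=
  ⟨f, h, fun _ hx => ⟨fun e => h.inj hx h1 (e.trans h2.symm), fun e => e ▸ h2⟩⟩

lemma glue1' (φ : ℕ → ℕ) (hφ : Injective φ) (h : ∀ n, Em (sl n X) (sl (φ n) Y))
    (ho : o ∈ X → o ∈ Y) : Ep X Y := by
  by_cases hx : o ∈ X
  swap
  · refine (em_ep (Y := Y \ {o}) (glue1 φ hφ (fun n => (h n).trans (Em.sub fun t ht => ?_))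
      fun h => absurd h hx) hx fun h => h.2 rfl).trans (Ep.sub sdiff_subset)
    exact ⟨ht, fun e => by cases e⟩
  choose f hf using h
  let g : T → T := fun x => match x with
    | o => o
    | c n t => c (φ n) (f n t)
  refine ise_ep (f := g) ⟨?_, ?_⟩ hx rfl
  · rintro (_ | ⟨n, t⟩) hx
    · exact ho hx
    · exact (hf n).1 hx
  · rintro (_ | ⟨n, t⟩) hx M hM
    · show _ ↔ o ∈ _
      rw [cl_o, cl_o]
      refine or_congr ⟨fun h => ⟨o, h, rfl⟩, ?_⟩ ⟨fun h hf' => h ?_, fun h hf' => h ?_⟩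
      · rintro ⟨_ | ⟨n, t⟩, h, e⟩
        · exact h
        · cases e
      · refine (hf'.preimage hφ.injOn).subset ?_
        rintro n ⟨t, ht⟩
        exact ⟨f n t, _, ht, rfl⟩
      · refine (hf'.image φ).subset ?_
        rintro m ⟨s, _ | ⟨n, t⟩, ht, e⟩
        · cases e
        · cases e
          exact ⟨n, ⟨t, ht⟩, rfl⟩
    · show _ ↔ c (φ n) (f n t) ∈ _
      rw [cl_c, (hf n).2 t hx (sl n M) fun _ h => hM h, cl_c]
      suffices f n '' sl n M = sl (φ n) (g '' M) by rw [this]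
      ext u
      constructor
      · rintro ⟨v, hv, rfl⟩
        exact ⟨_, hv, rfl⟩
      · rintro ⟨_ | ⟨n', v⟩, hv, e'⟩
        · cases e'
        · obtain ⟨e1, e2⟩ := T.c.inj e'
          cases hφ e1
          exact ⟨v, hv, e2⟩

lemma glue2' {X1 X2 Y1 Y2 : Set T} (hX : MP_f74662.Sep X1 X2) (hY : MP_f74662.Sep Y1 Y2) {f1 : T → T}
    (h1 : IsE f1 X1 Y1) (ho : o ∈ X1) (ho' : f1 o = o) (h2 : Em X2 Y2) :
    Ep (X1 ∪ X2) (Y1 ∪ Y2) := by
  classical
  obtain ⟨f2, h2⟩ := h2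
  let g : T → T := fun x => if x ∈ X1 then f1 x else f2 x
  have e1 : ∀ x ∈ X1, g x = f1 x := fun x hx => if_pos hx
  have e2 : ∀ x ∈ X2, g x = f2 x := fun x hx => if_neg fun h => hX.1 x h (subset_closure hx)
  refine ise_ep (f := g) ⟨?_, fun x hx M hM => ?_⟩ (Or.inl ho) ((e1 o ho).trans ho')
  · rintro x (hx | hx)
    · exact Or.inl (e1 x hx ▸ h1.1 hx)
    · exact Or.inr (e2 x hx ▸ h2.1 hx)
  have e : M = (M ∩ X1) ∪ (M ∩ X2) := by rw [← inter_union_distrib_left, inter_eq_left.2 hM]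
  have e' : g '' M = f1 '' (M ∩ X1) ∪ f2 '' (M ∩ X2) := by
    conv_lhs => rw [e, image_union]
    rw [image_congr fun x hx => e1 x hx.2, image_congr fun x hx => e2 x hx.2]
  rw [e', closure_union]
  conv_lhs => rw [e, closure_union]
  rcases hx with hx | hx
  · rw [e1 x hx, mem_union, mem_union, ← h1.2 x hx _ inter_subset_right,
      or_iff_left fun h => hX.1 x hx (closure_mono inter_subset_right h),
      or_iff_left fun h => hY.1 _ (h1.1 hx)
        (closure_mono (h2.1.mono_left inter_subset_right).image_subset h)]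
  · rw [e2 x hx, mem_union, mem_union, ← h2.2 x hx _ inter_subset_right,
      or_iff_right fun h => hX.2 x hx (closure_mono inter_subset_right h),
      or_iff_right fun h => hY.2 _ (h2.1 hx)
        (closure_mono (h1.1.mono_left inter_subset_right).image_subset h)]

def U : Set T := Lm S

def E : Set T := W S

def Dw (X : Set T) : Set T := ⋂ j, D j X

lemma Dw_map (h : IsE f X Y) : MapsTo f (Dw X) (Dw Y) := fun _ hx =>
  mem_iInter.2 fun j => h.D j (mem_iInter.1 hx j)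

lemma Dw_sub : Dw X ⊆ X := fun _ hx => mem_iInter.1 hx 0

lemma Dw_mono (h : X ⊆ Y) : Dw X ⊆ Dw Y := iInter_mono fun j => D_mono j h

lemma c_Dw {n : ℕ} {t : T} : c n t ∈ Dw X ↔ t ∈ Dw (sl n X) := by
  simp only [Dw, mem_iInter, c_D]

lemma Dw_S (h : X ⊆ S r) : Dw X = ∅ :=
  eq_empty_of_forall_notMem fun x hx => by
    have := D_mono (r + 1) h (mem_iInter.1 hx (r + 1))
    rw [D_next (S_D r).2] at this
    exact this

lemma Dw_U (h : X ⊆ U) : Dw X ⊆ {o} := by
  rintro (_ | ⟨n, t⟩) hx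
  · rfl
  · exact absurd (c_Dw.1 hx) (Dw_S (r := n) (sl_mono n h) ▸ notMem_empty t)

lemma S_mono {a b : ℕ} (h : a ≤ b) : Em (S a) (S b) := by
  induction h with
  | refl => exact Em.rfl
  | step _ ih => exact ih.trans (sl_em (X := S (_ + 1)) 0)

lemma o_Dw : o ∈ Dw U := by
  refine mem_iInter.2 fun j => ?_
  cases j with
  | zero => trivial
  | succ j =>
    refine o_D.2 ⟨trivial, (Ici_infinite j).mono fun n hn => ?_⟩
    exact (S_mono hn).D ⟨o, (S_D j).1⟩

lemma U_min : ∀ (x : T) (X : Set T), x ∈ Dw X → Em U X := by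
  intro x
  induction x with
  | c n t ih => exact fun X hx => (ih _ (c_Dw.1 hx)).trans (sl_em n)
  | o =>
    intro X hx
    obtain ⟨μ, h1, h2⟩ := extraction_forall_of_frequently
      (P := fun n m => (D n (sl m X)).Nonempty) fun n =>
        Nat.frequently_atTop_iff_infinite.2 (o_D.1 (mem_iInter.1 hx (n + 1))).2
    exact glue1 μ h1.injective (fun n => let ⟨t, ht⟩ := h2 n; S_min n t _ ht) fun _ => Dw_sub hx

lemma iso {M : Set T} (h : M ⊆ {o}) (x : T) : x ∉ closure (M \ {x}) := fun hx => by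
  have h1 := closure_mono (sdiff_subset_sdiff_left h) hx
  rw [((finite_singleton o).subset sdiff_subset).isClosed.closure_eq] at h1
  exact h1.2 rfl

lemma c_acc {n : ℕ} {t : T} (h : c n t ∈ closure (Dw X \ {c n t})) :
    t ∈ closure (Dw (sl n X) \ {t}) := by
  rw [cl_c] at h
  refine closure_mono (fun s hs => ?_) h
  exact ⟨c_Dw.1 hs.1, fun e => hs.2 (by cases e; rfl)⟩

lemma top (hX : sl 0 X = L U) (h0 : sl 0 Z ⊆ L U) (h1 : ∀ n, Dw (sl (n + 1) Z) ⊆ {o})
    (hf : IsE f X Z) (hp : ∀ x ∈ X, (f x = o ↔ x = o)) :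
    f (c 0 o) = c 0 o ∧ Em (L U) (sl 0 Z) := by
  have h : IsE (f ∘ c 0) (L U) Z := hX ▸ (isE_c 0 X).comp hf
  have a1 : o ∈ closure (Dw (L U) \ {o}) := by
    rw [cl_o]
    exact Or.inr (infinite_univ.mono fun n _ => ⟨o, c_Dw.2 o_Dw, fun e => by cases e⟩)
  have a2 : f (c 0 o) ∈ closure (Dw Z \ {f (c 0 o)}) := by
    refine closure_mono ?_ ((h.2 o o_L _ (sdiff_subset.trans Dw_sub)).1 a1)
    rintro _ ⟨x, hx, rfl⟩
    exact ⟨Dw_map h hx.1, fun e => hx.2 (h.inj (Dw_sub hx.1) o_L e)⟩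
  have a0 : c 0 o ∈ X := by
    have : o ∈ sl 0 X := hX ▸ o_L
    exact this
  rcases e : f (c 0 o) with _ | ⟨_ | m, s⟩ <;> rw [e] at a2
  · cases (hp _ a0).1 e
  · rcases s with _ | ⟨k, s⟩
    · obtain ⟨N, g, hg, -⟩ := h.loc o_L e
      exact ⟨rfl, (L_tail N).trans ⟨g, hg⟩⟩
    · exact absurd (c_acc (c_acc a2)) (iso (Dw_U (sl_mono k h0)) s)
  · exact absurd (c_acc a2) (iso (h1 m) s)

lemma inf (hX : sl 0 X = L U) (hX' : ∀ n, sl (n + 1) X = U) (h0 : sl 0 Z ⊆ L U)
    (h1 : ∀ n, Dw (sl (n + 1) Z) ⊆ {o}) (hf : IsE f X Z) (hp : ∀ x ∈ X, (f x = o ↔ x = o)) :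
    {m | (Dw (sl (m + 1) Z)).Nonempty}.Infinite := by
  intro hJ
  let M : Set T := range fun n => c (n + 1) o
  have m1 : M ⊆ Dw X := by rintro _ ⟨n, rfl⟩; exact c_Dw.2 (hX' n ▸ o_Dw)
  have m2 : M ⊆ X := m1.trans Dw_sub
  have m3 : f '' M ⊆ Dw Z := ((Dw_map hf).mono_left m1).image_subset
  have m4 : ∀ n, sl n (f '' M) ⊆ Dw (sl n Z) := fun n t ht => c_Dw.1 (m3 ht)
  have m5 : M.Infinite := infinite_range_of_injective fun a b e => by cases e; rfl
  have a0 : c 0 o ∈ X := by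
    have : o ∈ sl 0 X := hX ▸ o_L
    exact this
  refine m5.image (hf.inj.mono m2) (fin_sl ?_ ?_)
  · refine ((hJ.image (· + 1)).union (finite_singleton 0)).subset ?_
    rintro (_ | n) ⟨t, ht⟩
    · exact Or.inr rfl
    · exact Or.inl ⟨n, ⟨t, m4 _ ht⟩, rfl⟩
  · rintro (_ | n)
    · have a1 : o ∉ closure (sl 0 (f '' M)) := by
        rw [← cl_c, ← (top hX h0 h1 hf hp).1, ← hf.2 _ a0 M m2]
        exact nc fun t ⟨n, e⟩ => by cases e
      rw [cl_o, not_or, not_infinite] at a1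
      exact fin_sl a1.2 fun k => (finite_singleton o).subset fun t ht =>
        Dw_U (sl_mono k h0) (c_Dw.1 (m4 0 ht))
    · exact (finite_singleton o).subset ((m4 _).trans (h1 n))

lemma om_S (r : ℕ) : om (S r) ⊆ S (r + 1) := by
  rintro (_ | ⟨m, s⟩) hx
  · exact hx.elim
  · exact hx

lemma fr (j : ℕ) : ∀ (r : ℕ) (X : Set T), X ⊆ S r → D j X = ∅ → Em X (om (S (2 * j))) := by
  induction j with
  | zero => intro r X _ h; exact Em.sub (by rw [show X = ∅ from h]; exact empty_subset _)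
  | succ j ih =>
    intro r
    induction r with
    | zero =>
      intro X h _
      exact ((Em.sub h).trans (S_mono (Nat.zero_le _))).trans (sl_em (X := om _) 0)
    | succ r ihr =>
      intro X h hD
      have a1 : ∀ n, Em (sl n X) (om (S (2 * (j + 1)))) := fun n =>
        ihr _ (sl_mono n h) (by rw [← sl_D, hD]; rfl)
      by_cases ho : o ∈ X
      swap
      · exact om_sum ho a1
      have a2 : {n | (D j (sl n X)).Nonempty}.Finite := by
        by_contra hn
        exact absurd (o_D.2 ⟨ho, hn⟩) (hD ▸ notMem_empty o)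
      obtain ⟨N, hN⟩ := a2.bddAbove
      have a3 : Em (tail (N + 1) X) (S (2 * (j + 1))) := by
        refine glue1 id injective_id (fun n => ?_) fun _ => o_L
        refine (ih r _ ((sl_mono n fun _ h => h.1).trans (sl_mono n h)) ?_).trans (Em.sub (om_S _))
        refine eq_empty_of_forall_notMem fun t ht => ?_
        have b1 : n ≤ N := hN ⟨t, D_mono j (sl_mono n fun _ h => h.1) ht⟩
        have := (D_sub j ht).2 n t rfl
        omega
      have a4 : Em (res X (Iio (N + 1))) (res (om (S (2 * (j + 1)))) ((· + 1) '' univ)) := by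
        refine ((om_sum o_res fun n => (Em.sub (sl_mono n res_sub)).trans (a1 n)).trans
          (em_all fun h => h)).trans (reix _ (add_left_injective 1) fun _ _ => Em.rfl)
      have := glue2 (sep_tail (N + 1)) (sep_res (X := om (S (2 * (j + 1)))) (F := {0}) ?_)
        (em_res rfl a3) a4
      · rw [tail_union] at this
        exact this.trans (Em.sub (union_subset res_sub res_sub))
      · rintro _ rfl ⟨a, -, e⟩
        cases e

lemma E_U : E ⊆ U := by
  rintro (_ | ⟨m, s⟩) hx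
  · exact hx.elim
  · exact hx

lemma E_sum (ho : o ∉ X) (h : ∀ n, Em (sl n X) E) : Em X E := by
  refine glue (fun n => Nat.pair n '' univ) (pdis (F := fun _ => univ)) (fun n => ?_)
    fun h => absurd h ho
  exact ((h n).trans (em_all fun h => h)).trans
    (reix (X := E) (Y := E) _ (pinj n) fun m _ => S_mono (Nat.right_le_pair n m))

lemma small (h : Z ⊆ U) (hD : Dw Z = ∅) : Em Z E := by
  by_cases ho : o ∈ Z
  swap
  · refine Em.sub ?_
    rintro (_ | ⟨m, s⟩) hx
    · exact absurd hx ho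
    · exact h hx
  obtain ⟨j, hj⟩ : ∃ j, o ∉ D j Z := by
    by_contra hn
    push Not at hn
    exact absurd (mem_iInter.2 hn) (by rw [show ⋂ j, D j Z = ∅ from hD]; exact notMem_empty o)
  rcases j with _ | j
  · exact absurd ho hj
  have a2 : {n | (D j (sl n Z)).Nonempty}.Finite := by
    by_contra hn
    exact hj (o_D.2 ⟨ho, hn⟩)
  obtain ⟨N, hN⟩ := a2.bddAbove
  have a3 : Em (tail (N + 1) Z) (S (2 * j + 2)) := by
    refine glue1 id injective_id (fun n => ?_) fun _ => o_L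
    refine (fr j n _ ((sl_mono n fun _ h => h.1).trans (sl_mono n h)) ?_).trans (Em.sub (om_S _))
    refine eq_empty_of_forall_notMem fun t ht => ?_
    have b1 : n ≤ N := hN ⟨t, D_mono j (sl_mono n fun _ h => h.1) ht⟩
    have := (D_sub j ht).2 n t rfl
    omega
  have a4 : Em (res Z (Iio (N + 1))) (res E ((· + (2 * j + 3)) '' Iio (N + 1))) :=
    reix _ (add_left_injective _) fun n _ => (Em.sub (sl_mono n h)).trans (S_mono (by omega))
  have := glue2 (sep_tail (N + 1)) (sep_res (X := E) (F := {2 * j + 2}) ?_) (em_res rfl a3) a4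
  · rw [tail_union] at this
    exact this.trans (Em.sub (union_subset res_sub res_sub))
  · rintro _ rfl ⟨a, -, e⟩
    simp only at e
    omega

end Pool.Agent.H.MP_fe23ac_gt
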