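import Pool.Agent.H.MP_fe23ac_gt.A

set_option autoImplicit false
open Set Function Topology Filter

namespace Pool.Agent.H.MP_fe23ac_gt

open Pool.Agent.H.MP_f74662 T

variable {X Y Z y y' y'' : Set T} {f g : T → T} {r : ℕ}

def G (b : Prop) (V : Set T) : Set T := fun x => match x with
  | o => b
  | c 0 t => t ∈ L U
  | c (n + 1) t => c (n + 1) t ∈ V

def Cv' (X Y : Set T) : Prop := Ep X Y ∧ ¬ Ep Y X ∧ ∀ Z ⊆ Y, Ep X Z → Ep Z X ∨ Ep Y Z

lemma G_mono {b b' : Prop} (h : b → b') (h' : y ⊆ y') : G b y ⊆ G b' y' := by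
  rintro (_ | ⟨_ | n, t⟩) hx
  · exact h hx
  · exact hx
  · exact h' hx

lemma G_sub {b b' : Prop} (h : Z ⊆ G b y) (h' : o ∈ Z → b') : Z ⊆ G b' y := by
  rintro (_ | ⟨_ | n, t⟩) hx
  · exact h' hx
  · exact h hx
  · exact h hx

lemma dw1 {b : Prop} (h : Z ⊆ G b (L U)) (n : ℕ) : Dw (sl (n + 1) Z) ⊆ {o} :=
  Dw_U (sl_mono (n + 1) h)

lemma dw0 {b : Prop} (hy : y ⊆ L (S r)) (h : Z ⊆ G b y) (n : ℕ) : Dw (sl (n + 1) Z) = ∅ :=
  Dw_S (r := r) fun _ ht => hy (h ht)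

lemma full {b : Prop} (h0 : Em (L U) (sl 0 Z)) (hJ : {m | (Dw (sl (m + 1) Z)).Nonempty}.Infinite)
    (ho : b → o ∈ Z) : Ep (G b (L U)) Z := by
  refine glue1' (fun n => match n with
    | 0 => 0
    | n + 1 => (hJ.natEmbedding _ n).1 + 1) ?_ ?_ ho
  · rintro (_ | a) (_ | b) e <;> simp only at e <;> try omega
    rw [(hJ.natEmbedding _).injective (Subtype.ext (add_left_injective 1 e))]
  · rintro (_ | n)
    · exact h0
    · obtain ⟨t, ht⟩ := (hJ.natEmbedding _ n).2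
      exact U_min t _ ht

lemma cvAB : Cv' (G False ∅) (G False (L U)) := by
  refine ⟨Ep.sub (G_mono id (empty_subset _)), fun ⟨f, hf, hp⟩ => ?_, fun Z hZ ⟨f, hf, hp⟩ => ?_⟩
  · obtain ⟨m, t, ht⟩ := (inf rfl (fun _ => rfl) Subset.rfl
      (dw1 (G_mono id (empty_subset _))) hf hp).nonempty
    exact Dw_sub ht
  · by_cases hJ : {m | (Dw (sl (m + 1) Z)).Nonempty}.Infinite
    · exact Or.inr (full (top rfl (sl_mono 0 hZ) (dw1 hZ) hf hp).2 hJ False.elim)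
    · have ho : o ∉ Z := fun h => hZ h
      refine Or.inl (em_ep (Em.trans ?_ (sl_em (X := G False ∅) 0)) ho id)
      rw [← split3 ho {0}]
      refine absorb (sep_c _) ((res_em' 0).trans (Em.sub (sl_mono 0 hZ))) ?_
      have a0 : ∀ n, sl n (res Z {0}ᶜ) ⊆ U := by
        rintro (_ | n) t ht
        · exact absurd rfl (c_res.1 ht).2
        · exact hZ ht.1
      rw [← split3 (X := res Z {0}ᶜ) o_res ((· + 1) '' {m | (Dw (sl (m + 1) Z)).Nonempty})]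
      refine fle_union (sep_c _) (fle_fin ((not_infinite.1 hJ).image _)
        fun n _ => (Em.sub (a0 n)).fle) ((E_sum o_res fun n =>
          small ((sl_mono n res_sub).trans (a0 n)) ?_).trans (Em.sub E_U)).fle
      refine eq_empty_of_forall_notMem fun t ht => ?_
      obtain ⟨h1, h2⟩ := (c_res (m := n) (s := t)).1 (Dw_sub (X := sl n _) ht)
      rcases n with _ | m
      · exact (c_res.1 h1).2 rfl
      · exact h2 ⟨m, ⟨t, Dw_mono (sl_mono _ (res_sub.trans res_sub)) ht⟩, rfl⟩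

lemma cvBC : Cv' (G False (L U)) (G True (L U)) := by
  refine ⟨Ep.sub (G_mono False.elim Subset.rfl), fun ⟨f, hf, hp⟩ => ?_,
    fun Z hZ ⟨f, hf, hp⟩ => ?_⟩
  · have := hf.1 (x := o) trivial
    rw [(hp o trivial).2 rfl] at this
    exact this
  · by_cases ho : o ∈ Z
    · exact Or.inr (full (top rfl (sl_mono 0 hZ) (dw1 hZ) hf hp).2
        (inf rfl (fun _ => rfl) (sl_mono 0 hZ) (dw1 hZ) hf hp) fun _ => ho)
    · exact Or.inl (Ep.sub (G_sub hZ ho))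

lemma cvA1 : Cv' (G False ∅) (G True {o}) := by
  refine ⟨Ep.sub (G_mono False.elim (empty_subset _)), fun ⟨f, hf, hp⟩ => ?_,
    fun Z hZ ⟨f, hf, hp⟩ => ?_⟩
  · have := hf.1 (x := o) trivial
    rw [(hp o trivial).2 rfl] at this
    exact this
  · by_cases ho : o ∈ Z
    · refine Or.inr (glue1' id injective_id ?_ fun _ => ho)
      rintro (_ | n)
      · refine (top rfl (sl_mono 0 hZ) (fun n => ?_) hf hp).2
        rw [dw0 (r := 0) (y := {o}) (by rintro _ rfl; exact o_L) hZ]; exact empty_subset _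
      · exact Em.sub fun t ht => by cases ht
    · refine Or.inl (Ep.sub ?_)
      rintro (_ | ⟨_ | n, t⟩) hx
      · exact ho hx
      · exact hZ hx
      · cases hZ hx

def pr (y y' : Set T) : Prop := ∃ N f, IsE f (tail N y) y' ∧ f o = o

lemma tail_mono {N N' : ℕ} (h : N ≤ N') : tail N' y ⊆ tail N y := fun _ hx =>
  ⟨hx.1, fun m s e => h.trans (hx.2 m s e)⟩

lemma shrink {N : ℕ} (hf : IsE f (tail N y) Y) (ho : o ∈ y) (e : f o = o) (K K' : ℕ) :
    ∃ N', K' ≤ N' ∧ IsE f (tail N' y) (tail K Y) := by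
  have h0 : o ∈ Y := e ▸ hf.1 (o_tail ho)
  have h1 : o ∉ closure {x ∈ tail N y | f x ∈ res Y (Iio K)} := by
    rw [hf.2 o (o_tail ho) _ (sep_subset _ _), e]
    refine fun h => (sep_tail (X := Y) (Y := Y) K).1 o (o_tail h0) (closure_mono ?_ h)
    rintro _ ⟨x, hx, rfl⟩
    exact hx.2
  rw [cl_o, not_or, not_infinite] at h1
  obtain ⟨M, hM⟩ := h1.2.bddAbove
  refine ⟨max (max N K') (M + 1), by omega, hf.mono (tail_mono (by omega)) ?_⟩
  rintro (_ | ⟨n, t⟩) hx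
  · rw [e]; exact o_tail h0
  · have h2 := tail_mono (N := N) (by omega) hx
    have h3 := hf.1 h2
    rw [← tail_union K Y] at h3
    refine h3.resolve_right fun h => ?_
    have h4 : n ≤ M := hM ⟨t, h2, h⟩
    have := hx.2 n t rfl
    omega

lemma pr.trans (ho : o ∈ y) (h : pr y y') (h' : pr y' y'') : pr y y'' := by
  obtain ⟨N, f, h1, h2⟩ := h
  obtain ⟨N', g, h3, h4⟩ := h'
  obtain ⟨K, -, h5⟩ := shrink h1 ho h2 N' 0
  exact ⟨K, g ∘ f, h5.comp h3, by simp [h2, h4]⟩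

lemma pr_sub {N : ℕ} (h : tail N y ⊆ y') : pr y y' := ⟨N, id, ⟨h, fun x _ M _ => by simp⟩, rfl⟩

lemma Ep.pr (h : Ep y y') (ho : o ∈ y) : pr y y' :=
  let ⟨f, h1, h2⟩ := h
  ⟨0, f, h1.mono (fun _ h => h.1) fun _ h => h1.1 h.1, (h2 o ho).2 rfl⟩

lemma tail_G {N : ℕ} (ho : o ∈ y) (h : 1 ≤ N) : tail N (G True y) = tail N y := by
  ext (_ | ⟨_ | n, t⟩)
  · exact ⟨fun _ => o_tail ho, fun _ => o_tail trivial⟩
  · exact ⟨fun hx => absurd (hx.2 0 t rfl) (by omega), fun hx => absurd (hx.2 0 t rfl) (by omega)⟩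
  · exact Iff.rfl

lemma S_U (r : ℕ) : Em (S r) U := sl_em (X := U) r

lemma G_pr (hy : y ⊆ L (S r)) (ho : o ∈ y) (ho' : o ∈ y') (h : pr y y') :
    Ep (G True y) (G True y') := by
  obtain ⟨N, f, h1, h2⟩ := h
  obtain ⟨K, hK, h3⟩ := shrink h1 ho h2 1 1
  rw [← tail_G ho hK, ← tail_G ho' le_rfl] at h3
  have a : Em (res (G True y) (Iio K)) (res (G True y') (Iio 1)) := by
    refine em_res (m := 0) (by simp) ?_
    rw [← split3 (X := res (G True y) (Iio K)) o_res {0}]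
    refine absorb (sep_c _) ((res_em' 0).trans (Em.sub (sl_mono 0 res_sub))) ?_
    refine (Em.sub (Y := res (res (G True y) {0}ᶜ) (Iio K)) ?_).trans_fle
      (fle_fin (finite_Iio K) fun n _ => Em.fle ?_)
    · rintro _ ⟨⟨h, m, hm, s, rfl⟩, h'⟩
      exact c_res.2 ⟨⟨h, h'⟩, hm⟩
    · refine (Em.sub ?_).trans (S_U r)
      rcases n with _ | n
      · exact fun t ht => absurd rfl (c_res.1 ht).2
      · exact fun t ht => hy ht.1
  have := glue2' (sep_tail K) (sep_tail 1) h3 (o_tail trivial) h2 a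
  rwa [tail_union, tail_union] at this

lemma pr_G (ho : o ∈ y) (h : Ep (G True y) Z) : pr y (tail 1 Z) := by
  obtain ⟨N, f, h1, h2⟩ := h.pr trivial
  obtain ⟨K, hK, h3⟩ := shrink h1 trivial h2 1 1
  rw [tail_G ho hK] at h3
  exact ⟨K, f, h3, h2⟩

def Cov' (y y' : Set T) : Prop :=
  pr y y' ∧ ¬ pr y' y ∧ ∀ w ⊆ y', o ∈ w → pr y w → pr w y ∨ pr y' w

lemma cvY {r' : ℕ} (hy : y ⊆ L (S r)) (hy' : y' ⊆ L (S r')) (ho : o ∈ y) (ho' : o ∈ y')
    (h : Cov' y y') : Cv' (G True y) (G True y') := by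
  refine ⟨G_pr hy ho ho' h.1, fun e => h.2.1 ?_, fun Z hZ e => ?_⟩
  · have := pr_G ho' e
    rw [tail_G ho le_rfl] at this
    exact this.trans ho' (pr_sub (N := 0) fun _ h => h.1.1)
  · have a1 : tail 1 Z ⊆ y' := fun x hx => (tail_G ho' le_rfl ▸ ⟨hZ hx.1, hx.2⟩ : x ∈ tail 1 y').1
    obtain ⟨f, hf, hp⟩ := e
    have a2 : o ∈ Z := (hp o trivial).2 rfl ▸ hf.1 (x := o) trivial
    rcases h.2.2 _ a1 (o_tail a2) (pr_G ho ⟨f, hf, hp⟩) with e' | e'
    · refine Or.inl ((Ep.sub ?_).trans (G_pr (a1.trans hy') (o_tail a2) ho e'))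
      rintro (_ | ⟨_ | n, t⟩) hx
      · trivial
      · exact hZ hx
      · exact ⟨hx, fun m s e => by cases e; omega⟩
    · refine Or.inr ((G_pr hy' ho' (o_tail a2) e').trans (glue1' id injective_id ?_ fun _ => a2))
      rintro (_ | n)
      · refine (top rfl (sl_mono 0 hZ) (fun n => ?_) hf hp).2
        rw [dw0 hy' hZ]; exact empty_subset _
      · exact Em.sub fun t ht => ht.1

lemma ltC (hy : y ⊆ L (S r)) : Ep (G True y) (G True (L U)) ∧ ¬ Ep (G True (L U)) (G True y) := by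
  refine ⟨glue1' id injective_id ?_ id, fun ⟨f, hf, hp⟩ => ?_⟩
  · rintro (_ | n)
    · exact Em.rfl
    · exact (Em.sub (sl_mono (n + 1) hy)).trans (S_U r)
  · obtain ⟨m, t, ht⟩ := (inf rfl (fun _ => rfl) Subset.rfl
      (fun n => by rw [dw0 hy Subset.rfl]; exact empty_subset _) hf hp).nonempty
    rw [dw0 hy Subset.rfl] at ht
    exact ht

lemma glue' (F : ℕ → Set ℕ) (hd : ∀ n n' m, m ∈ F n → m ∈ F n' → n = n')
    (h : ∀ n, Em (sl n X) (res Y (F n))) (ho : o ∈ Y) (hF : ∀ n, (F n).Finite) :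
    ∃ g, IsE g X Y ∧ g o = o := by
  choose f hf using h
  let g : T → T := fun x => match x with
    | o => o
    | c n t => f n t
  have h1 : ∀ n t, c n t ∈ X → ∃ m ∈ F n, ∃ s, f n t = c m s := fun n t ht => ((hf n).1 ht).2
  refine ⟨g, ⟨?_, ?_⟩, rfl⟩
  · rintro (_ | ⟨n, t⟩) hx
    · exact ho
    · exact ((hf n).1 hx).1
  · rintro (_ | ⟨n, t⟩) hx M hM
    · show _ ↔ o ∈ _
      rw [cl_o, cl_o]
      refine or_congr ⟨fun h => ⟨o, h, rfl⟩, ?_⟩ ⟨fun h hf' => h ?_, fun h hf' => h ?_⟩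
      · rintro ⟨_ | ⟨n, t⟩, h, e⟩
        · exact h
        · obtain ⟨m, -, s, e'⟩ := h1 n t (hM h)
          cases e'.symm.trans e
      · refine (hf'.biUnion (t := fun m => {n | m ∈ F n}) fun m _ =>
          Set.Subsingleton.finite fun a ha b hb => hd a b m ha hb).subset ?_
        rintro n ⟨t, ht⟩
        obtain ⟨m, hm, s, e⟩ := h1 n t (hM ht)
        exact mem_iUnion₂.2 ⟨m, ⟨s, _, ht, e⟩, hm⟩
      · refine (hf'.biUnion fun n _ => hF n).subset ?_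
        rintro m ⟨s, _ | ⟨n, t⟩, ht, e⟩
        · cases e
        · obtain ⟨m', hm, s', e'⟩ := h1 n t (hM ht)
          cases e'.symm.trans e
          exact mem_iUnion₂.2 ⟨n, ⟨t, ht⟩, hm⟩
    · obtain ⟨m, hm, s, e⟩ := h1 n t hx
      show _ ↔ f n t ∈ _
      rw [cl_c, (hf n).2 t hx (sl n M) fun _ h => hM h, e, cl_c, cl_c]
      suffices sl m (f n '' sl n M) = sl m (g '' M) by rw [this]
      ext u
      constructor
      · rintro ⟨v, hv, e'⟩
        exact ⟨_, hv, e'⟩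
      · rintro ⟨_ | ⟨n', v⟩, hv, e'⟩
        · cases e'
        · obtain ⟨m', hm', s', e''⟩ := h1 n' v (hM hv)
          cases e''.symm.trans e'
          cases hd n n' m hm hm'
          exact ⟨v, hv, e'⟩

lemma pr_type {ι : Type} [Finite ι] {k : Set T → ι} (hk : ∀ V ⊆ X, ∀ U : ℕ → Set T,
    (∀ m, U m ⊆ X ∧ k (U m) = k V) → ∃ F : Set ℕ, F.Finite ∧ Em V (res (W U) F))
    (h1 : y ⊆ L X) (h2 : y' ⊆ L X) (ho : o ∈ y')
    (e : {i | {n | k (sl n y') = i}.Infinite} = {i | {n | k (sl n y) = i}.Infinite}) : pr y y' := by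
  let J : Set ℕ := {n | ¬ {l | k (sl l y) = k (sl n y)}.Infinite}
  have hJ : J.Finite := by
    refine ((toFinite {i | {l | k (sl l y) = i}.Finite}).biUnion fun i hi => hi).subset
      fun n hn => ?_
    exact mem_iUnion₂.2 ⟨_, not_infinite.1 hn, rfl⟩
  obtain ⟨N, hN⟩ := hJ.bddAbove
  obtain ⟨μ, hμ1, hμ2⟩ := extraction_forall_of_frequently
    (P := fun p m => p.unpair.1 ∉ J → k (sl m y') = k (sl p.unpair.1 y)) fun p => by
      by_cases hp : p.unpair.1 ∈ J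
      · exact Frequently.of_forall fun _ h => absurd hp h
      · exact (Nat.frequently_atTop_iff_infinite.2
          ((Set.ext_iff.1 e _).2 (not_not.1 hp))).mono fun _ h _ => h
  have b2 : ∀ n, ∃ G : Set ℕ, G.Finite ∧
      Em (sl n (tail (N + 1) y)) (res y' (μ '' (Nat.pair n '' G))) := by
    intro n
    by_cases hn : n ∈ J
    · refine ⟨∅, finite_empty, Em.sub fun t ht => ?_⟩
      have := ht.2 n t rfl
      have := hN hn
      omega
    · obtain ⟨G, h1, h2⟩ := hk (sl n y) (sl_mono n h1) (fun m => sl (μ (Nat.pair n m)) y')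
        fun m => ⟨sl_mono _ h2, by simpa using hμ2 (Nat.pair n m) (by simpa using hn)⟩
      refine ⟨G, h1, ((Em.sub (sl_mono n fun _ h => h.1)).trans h2).trans ?_⟩
      rw [image_image]
      exact reix _ (hμ1.injective.comp (pinj n)) fun m _ => Em.rfl
  choose G hG1 hG2 using b2
  refine ⟨N + 1, glue' (fun n => μ '' (Nat.pair n '' G n)) ?_ hG2 ho
    fun n => ((hG1 n).image _).image _⟩
  rintro n n' _ ⟨a, ha, rfl⟩ ⟨b, hb, e⟩
  cases hμ1.injective e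
  exact pdis (F := G) n n' _ ha hb

lemma next (hy : y ⊆ L (S r)) (ho : o ∈ y) : ∃ z ⊆ L (S (r + 1)), o ∈ z ∧ Cov' y z := by
  obtain ⟨ι, _, k, hk⟩ := Φ_S (r + 1)
  let τ : Set T → Set ι := fun z => {i | {n | k (sl n z) = i}.Infinite}
  let μ : Set T → ℕ := fun z =>
    {i | ∃ u ⊆ L (S (r + 1)), o ∈ u ∧ τ u = i ∧ pr u z ∧ ¬ pr z u}.ncard
  have hne : {z | z ⊆ L (S (r + 1)) ∧ o ∈ z ∧ pr y z ∧ ¬ pr z y}.Nonempty := by
    refine ⟨L (S (r + 1)), Subset.rfl, o_L, Ep.pr (glue1' id injective_id (fun n => ?_) fun _ => o_L) ho,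
      fun ⟨N, f, h1, h2⟩ => ?_⟩
    · exact (Em.sub (sl_mono n hy)).trans (S_mono (Nat.le_succ r))
    · have a1 : o ∈ D (r + 2) (tail N (L (S (r + 1)))) := by
        refine o_D.2 ⟨o_tail o_L, (Ici_infinite N).mono fun n hn => ⟨o, D_mono _ ?_ (S_D (r + 1)).1⟩⟩
        exact fun t ht => ⟨ht, fun m s e => by cases e; exact hn⟩
      have a2 := D_mono _ hy (h1.D _ a1)
      have a3 : D (r + 2) (L (S r)) = ∅ := D_next (S_D (r + 1)).2
      rw [a3] at a2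
      exact a2
  obtain ⟨z, ⟨a, b, d, e⟩, hz⟩ := (InvImage.wf μ wellFounded_lt).has_min _ hne
  refine ⟨z, a, b, d, e, fun w h1 h2 h3 => ?_⟩
  by_contra hn
  push Not at hn
  have h4 : pr w z := pr_sub (N := 0) fun _ h => h1 h.1
  refine hz w ⟨h1.trans a, h2, h3, hn.1⟩ (ncard_lt_ncard ⟨?_, fun hs => ?_⟩)
  · rintro i ⟨u, u1, u2, u3, u4, u5⟩
    exact ⟨u, u1, u2, u3, u4.trans u2 h4, fun e => u5 (h4.trans h2 e)⟩
  · obtain ⟨u, u1, u2, u3, -, u5⟩ := hs ⟨w, h1.trans a, h2, rfl, h4, hn.2⟩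
    exact u5 (pr_type hk (h1.trans a) u1 u2 u3)

lemma main : ∃ A B C : Set T, ∃ X : ℕ → Set T, Cv' A B ∧ Cv' B C ∧ Cv' A (X 0) ∧
    (∀ n, Cv' (X n) (X (n + 1))) ∧ ∀ n, Ep (X n) C ∧ ¬ Ep C (X n) := by
  have h : ∀ r (y : {y : Set T // y ⊆ L (S r) ∧ o ∈ y}),
      ∃ z : {y : Set T // y ⊆ L (S (r + 1)) ∧ o ∈ y}, Cov' y.1 z.1 := fun r y =>
    let ⟨z, h1, h2, h3⟩ := next y.2.1 y.2.2; ⟨⟨z, h1, h2⟩, h3⟩
  choose F hF using h
  let Y : ∀ r, {y : Set T // y ⊆ L (S r) ∧ o ∈ y} := fun r =>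
    Nat.rec ⟨{o}, fun _ h => h ▸ o_L, rfl⟩ F r
  exact ⟨_, _, _, fun n => G True (Y n).1, cvAB, cvBC, cvA1,
    fun n => cvY (Y n).2.1 (Y (n + 1)).2.1 (Y n).2.2 (Y (n + 1)).2.2 (hF n (Y n)),
    fun n => ltC (Y n).2.1⟩

end Pool.Agent.H.MP_fe23ac_gt
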