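import Pool.Agent.H.MP_fe23ac_gt.B
import Pool.Agent.Lib.helper21.RigidReals

set_option autoImplicit false
open Set Function Topology Filter Cardinal

namespace Pool.Agent.H.MP_fe23ac_gt

open Pool.Agent.H.MP_f74662 T Pool.Agent.Lib.helper21.RigidReals

theorem avoid (E : I → Set ℝ) (hE : ∀ a, #(E a) = 𝔠) (G : I → ℝ → ℝ) :
    ∃ x : I → ℝ, (∀ a, x a ∈ E a) ∧ Injective x ∧ ∀ a b c, b < a → c < a → x a ≠ G b (x c) := by
  have step : ∀ (a : I) (prev : ∀ c, c < a → ℝ), ∃ r ∈ E a, (∀ c (h : c < a), r ≠ prev c h) ∧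
      ∀ b c (h : c < a), b < a → r ≠ G b (prev c h) := by
    intro a prev
    let B1 : Set ℝ := range (fun c : Iio a => prev c.1 c.2)
    let B2 : Set ℝ := range (fun p : Iio a × Iio a => G p.1.1 (prev p.2.1 p.2.2))
    have h1 : #B1 < 𝔠 := mk_range_le.trans_lt (mk_Iio_I a)
    have h2 : #B2 < 𝔠 := by
      refine mk_range_le.trans_lt ?_
      rw [mk_prod]; simp only [lift_id]
      exact mul_lt_of_lt aleph0_le_continuum (mk_Iio_I a) (mk_Iio_I a)
    have h3 : #(B1 ∪ B2 : Set ℝ) < #(E a) := by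
      rw [hE]
      exact (mk_union_le _ _).trans_lt (add_lt_of_lt aleph0_le_continuum h1 h2)
    have : ¬ E a ⊆ B1 ∪ B2 := fun h => (mk_le_mk_of_subset h).not_gt h3
    obtain ⟨r, hr, hr2⟩ := not_subset.1 this
    refine ⟨r, hr, fun c h e => hr2 (Or.inl ⟨⟨c, h⟩, e.symm⟩),
      fun b c h hb e => hr2 (Or.inr ⟨(⟨b, hb⟩, ⟨c, h⟩), e.symm⟩)⟩
  choose F hF using step
  let x : I → ℝ := (wellFounded_lt (α := I)).fix F
  have hx : ∀ a, x a = F a (fun c _ => x c) := fun a => WellFounded.fix_eq _ F a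
  refine ⟨x, fun a => ?_, ?_, fun a b c hb hc => ?_⟩
  · rw [hx]; exact (hF a _).1
  · intro a b hab
    rcases lt_trichotomy a b with h | h | h
    · exact absurd hab.symm (by rw [hx b]; exact (hF b _).2.1 a h)
    · exact h
    · exact absurd hab (by rw [hx a]; exact (hF a _).2.1 b h)
  · rw [hx a]; exact (hF a _).2.2 b c hc hb

lemma gr {α : Type} [TopologicalSpace α] {p q : α → ℝ} (hp : IsInducing p) (hq : Continuous q)
    {a : α} {s : ℝ} (h : (p a, s) ∈ closure (range fun a => (p a, q a))) : s = q a := by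
  obtain ⟨z, hz, hl⟩ := mem_closure_iff_seq_limit.1 h
  choose b hb using hz
  have h1 : Tendsto (p ∘ b) atTop (𝓝 (p a)) :=
    ((continuous_fst.tendsto _).comp hl).congr fun n => (congrArg Prod.fst (hb n)).symm
  have h2 : Tendsto (q ∘ b) atTop (𝓝 s) :=
    ((continuous_snd.tendsto _).comp hl).congr fun n => (congrArg Prod.snd (hb n)).symm
  exact tendsto_nhds_unique h2 ((hq.tendsto a).comp (hp.tendsto_nhds_iff.2 h1))

lemma code {α : Type} [TopologicalSpace α] [Nonempty α] {p q : α → ℝ} (hp : IsInducing p)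
    (hq : Continuous q) : ∃ u : ℕ → ℝ × ℝ, ∀ a,
      Classical.epsilon (fun s => (p a, s) ∈ closure (range u)) = q a := by
  obtain ⟨D, h1, h2, h3⟩ := (TopologicalSpace.IsSeparable.of_separableSpace
    (range fun a => (p a, q a))).exists_countable_dense_subset
  have hne : D.Nonempty := closure_nonempty_iff.1 ((range_nonempty _).mono h3)
  obtain ⟨u, rfl⟩ := h2.exists_eq_range hne
  exact ⟨u, fun a => gr hp hq (closure_mono h1 (Classical.epsilon_spec
    (p := fun s => (p a, s) ∈ closure (range u)) ⟨q a, h3 ⟨a, rfl⟩⟩))⟩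

theorem rigid : ∃ R : Set ℝ, R ⊆ Iio 0 ∧ 0 ∈ closure R ∧ ∀ φ : R → ℝ, IsEmbedding φ →
    ∀ K : Set ℝ, K.Countable → (∀ a, φ a ∈ R ∪ K) → ∀ a, φ a = a := by
  have hc : #(ℕ → ℝ × ℝ) = #I := by
    rw [mk_I]; simp [mk_real]
  obtain ⟨e⟩ := Cardinal.eq.1 hc
  let C := {p : ℚ × ℚ // (p.1 : ℝ) < p.2 ∧ (p.2 : ℝ) < 0}
  have : Nonempty C := ⟨⟨(-2, -1), by norm_num, by norm_num⟩⟩
  obtain ⟨c, hcc⟩ := exists_colouring C
  obtain ⟨x, hE, hinj, hx⟩ := avoid (fun a => Ioo ((c a).1.1 : ℝ) (c a).1.2)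
    (fun a => mk_Ioo_real (c a).2.1)
    (fun b r => Classical.epsilon fun s => (r, s) ∈ closure (range (e.symm b)))
  have dn : ∀ Y : Set I, #Y < 𝔠 → ∀ r ≤ (0 : ℝ), r ∈ closure (x '' Yᶜ) := by
    intro Y hY r hr
    refine Metric.mem_closure_iff.2 fun ε hε => ?_
    obtain ⟨q1, a1, a2⟩ := exists_rat_btwn (sub_lt_self r hε)
    obtain ⟨q2, b1, b2⟩ := exists_rat_btwn a2
    have : ¬ c ⁻¹' {⟨(q1, q2), b1, b2.trans_le hr⟩} ⊆ Y := fun h =>
      (mk_le_mk_of_subset h).not_gt (by rw [hcc]; exact hY)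
    obtain ⟨a, ha, hb⟩ := not_subset.1 this
    have h := hE a
    rw [show c a = _ from ha] at h
    refine ⟨x a, ⟨a, hb, rfl⟩, ?_⟩
    rw [Real.dist_eq, abs_lt]
    constructor <;> linarith [h.1, h.2]
  have hneg : range x ⊆ Iio 0 := by
    rintro _ ⟨a, rfl⟩
    exact (hE a).2.trans (c a).2.2
  refine ⟨range x, hneg, closure_mono (image_subset_range _ _)
    (dn ∅ (by simp [continuum_pos]) 0 le_rfl), fun φ hφ K hK hm => ?_⟩
  have : Nonempty (range x) := ⟨⟨_, e (fun _ => 0), rfl⟩⟩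
  obtain ⟨u, hu⟩ := code (p := Subtype.val) IsInducing.subtypeVal hφ.continuous
  obtain ⟨v, hv⟩ := code hφ.isInducing (q := Subtype.val) continuous_subtype_val
  let y : I → range x := fun a => ⟨x a, a, rfl⟩
  let Y := {a | φ (y a) ≠ x a}
  have hsub : Y ⊆ (Iio (max (e u) (e v)) ∪ {max (e u) (e v)}) ∪ (φ ∘ y) ⁻¹' K := by
    intro a ha
    by_contra hn
    simp only [mem_union, mem_Iio, mem_singleton_iff, mem_preimage, not_or, not_lt] at hn
    have hlt : max (e u) (e v) < a := hn.1.1.lt_of_ne' hn.1.2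
    obtain ⟨a', h'⟩ := (hm (y a)).resolve_right hn.2
    rcases lt_trichotomy a a' with h | h | h
    · refine hx a' (e u) a ((le_max_left _ _).trans_lt (hlt.trans h)) h ?_
      rw [Equiv.symm_apply_apply, h']
      exact (hu (y a)).symm
    · exact ha (h ▸ h'.symm)
    · refine hx a (e v) a' ((le_max_right _ _).trans_lt hlt) h ?_
      rw [Equiv.symm_apply_apply, h']
      exact (hv (y a)).symm
  have hY : #Y < 𝔠 := by
    refine (mk_le_mk_of_subset hsub).trans_lt ((mk_union_le _ _).trans_lt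
      (add_lt_of_lt aleph0_le_continuum ((mk_union_le _ _).trans_lt
        (add_lt_of_lt aleph0_le_continuum (mk_Iio_I _) ?_)) ?_))
    · exact (le_aleph0_iff_set_countable.2 (countable_singleton _)).trans_lt aleph0_lt_continuum
    · exact (le_aleph0_iff_set_countable.2 (hK.preimage (hφ.injective.comp
        fun a b h => hinj (congrArg Subtype.val h)))).trans_lt aleph0_lt_continuum
  intro a
  have h1 : a ∈ closure {a : range x | φ a = a} := by
    rw [closure_subtype]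
    refine closure_mono ?_ (dn Y hY a (hneg a.2).le)
    rintro _ ⟨b, hb, rfl⟩
    exact ⟨y b, not_not.1 hb, rfl⟩
  exact (isClosed_eq hφ.continuous continuous_subtype_val).closure_subset h1

def IsC (f : ℝ → ℝ) (X Y : Set ℝ) : Prop :=
  MapsTo f X Y ∧ ∀ x ∈ X, ∀ M ⊆ X, (x ∈ closure M ↔ f x ∈ closure (f '' M))

lemma IsC.emb {f : ℝ → ℝ} {X Y : Set ℝ} (hf : IsC f X Y) : IsEmbedding (hf.1.restrict f X Y) := by
  refine ⟨⟨?_⟩, fun a b e => Subtype.ext ?_⟩
  · refine TopologicalSpace.ext_iff_isClosed.2 fun s => ?_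
    have key : ∀ x : X, x ∈ closure s ↔
        hf.1.restrict f X Y x ∈ closure (hf.1.restrict f X Y '' s) := by
      intro x
      rw [closure_subtype, closure_subtype, hf.2 x x.2 _ (Subtype.coe_image_subset X s),
        image_image, image_image]
      rfl
    exact (closure_subset_iff_isClosed.symm.trans ⟨fun h a ha => h ((key a).2 ha),
      fun h a ha => h a ((key a).1 ha)⟩).trans isClosed_induced_iff'.symm
  · have := hf.2 a a.2 {b.1} (singleton_subset_iff.2 b.2)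
    have e' : f a = f b := congrArg Subtype.val e
    simpa [e'] using this

lemma er_isc {X Y : Set ℝ} : ER X Y → ∃ f, IsC f X Y := by
  rintro ⟨f, hf⟩
  classical
  refine ⟨fun x => if h : x ∈ X then (f ⟨x, h⟩).1 else x, fun x hx => ?_, fun x hx M hM => ?_⟩
  · simp only [dif_pos hx]; exact (f ⟨x, hx⟩).2
  · have e1 : M = Subtype.val '' (Subtype.val ⁻¹' M : Set X) := by
      rw [Subtype.image_preimage_coe, inter_eq_right.2 hM]
    have e2 : (fun x => if h : x ∈ X then (f ⟨x, h⟩).1 else x) '' M =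
        Subtype.val '' (f '' (Subtype.val ⁻¹' M)) := by
      conv_lhs => rw [e1]
      rw [image_image, image_image]
      exact image_congr fun a _ => dif_pos a.2
    simp only [dif_pos hx]
    rw [e2, ← closure_subtype, ← mem_preimage, ← hf.isInducing.closure_eq_preimage_closure_image,
      closure_subtype, ← e1]

def enc : T → ℕ
  | o => 0
  | T.c n t => Nat.pair n (enc t) + 1

lemma enc_inj : Injective enc := by
  intro a
  induction a with
  | o => rintro (_ | ⟨n, t⟩) h <;> simp_all [enc]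
  | c n t ih =>
    rintro (_ | ⟨m, s⟩) h
    · simp [enc] at h
    · simp only [enc, add_left_inj, Nat.pair_eq_pair] at h
      rw [h.1, ih h.2]

instance : Countable T := enc_inj.countable

lemma cl_ρ (t : T) (M : Set T) : ρ t ∈ closure (ρ '' M) ↔ t ∈ closure M := by
  rw [ρ_emb.isInducing.closure_eq_preimage_closure_image, mem_preimage]

lemma cl_pos {M : Set T} {r : ℝ} (h : r ∈ closure (ρ '' M)) : 0 ≤ r :=
  isClosed_Ici.closure_subset (closure_mono (by rintro _ ⟨t, -, rfl⟩; exact (ρ_mem t).1) h)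

structure Rg (R : Set ℝ) : Prop where
  neg : R ⊆ Iio 0
  cl : 0 ∈ closure R
  fix : ∀ φ : R → ℝ, IsEmbedding φ →
    ∀ K : Set ℝ, K.Countable → (∀ a, φ a ∈ R ∪ K) → ∀ a, φ a = a

variable {R : Set ℝ} {X Y : Set T}

lemma Rg.fx (h : Rg R) {F : ℝ → ℝ} {G : Set ℝ} (hF : IsC F (R ∪ ρ '' X) G)
    (hG : G ⊆ R ∪ ρ '' Y) : ∀ r ∈ R, F r = r := fun r hr =>
  h.fix _ ((IsEmbedding.subtypeVal.comp hF.emb).comp (IsEmbedding.inclusion subset_union_left))
    _ ((to_countable Y).image ρ) (fun a => hG (hF.1 (Or.inl a.2))) ⟨r, hr⟩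

lemma Rg.zero (h : Rg R) {M : Set ℝ} (hM : M ⊆ R) {t : T} (ht : ρ t ∈ closure M) : t = o :=
  ρ_inj (le_antisymm (isClosed_Iic.closure_subset
    (closure_mono (fun _ hr => le_of_lt (h.neg (hM hr))) ht)) (ρ_mem t).1)

lemma Rg.iff (h : Rg R) : ER (R ∪ ρ '' X) (R ∪ ρ '' Y) ↔ Ep X Y := by
  have : Nonempty T := ⟨o⟩
  have hi := leftInverse_invFun ρ_inj
  constructor
  · intro hE
    obtain ⟨F, hF⟩ := er_isc hE
    have fx := h.fx hF Subset.rfl
    have eR : F '' R = R := (image_congr fx).trans (image_id R)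
    have hm : ∀ t ∈ X, F (ρ t) ∈ ρ '' Y := fun t ht => (hF.1 (Or.inr ⟨t, ht, rfl⟩)).resolve_left
      fun hr => by
        have := hF.emb.injective (a₁ := ⟨ρ t, Or.inr ⟨t, ht, rfl⟩⟩) (a₂ := ⟨_, Or.inl hr⟩)
          (Subtype.ext (fx _ hr).symm)
        have e : ρ t = F (ρ t) := congrArg Subtype.val this
        exact (h.neg (e ▸ hr)).not_ge (ρ_mem t).1
    let g : T → T := fun t => invFun ρ (F (ρ t))
    have hg : ∀ t ∈ X, ρ (g t) = F (ρ t) ∧ g t ∈ Y := fun t ht => by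
      obtain ⟨s, hs, e⟩ := hm t ht
      have : g t = s := by simp only [g, ← e, hi s]
      exact this ▸ ⟨e, hs⟩
    refine ⟨g, ⟨fun t ht => (hg t ht).2, fun t ht M hM => ?_⟩, fun t ht => ?_⟩
    · rw [← cl_ρ, hF.2 _ (Or.inr ⟨t, ht, rfl⟩) _ ((image_mono hM).trans subset_union_right),
        ← cl_ρ, (hg t ht).1, image_image, image_image,
        image_congr fun a ha => (hg a (hM ha)).1]
    · have := hF.2 _ (Or.inr ⟨t, ht, rfl⟩) R subset_union_left
      rw [eR, ← (hg t ht).1] at this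
      exact ⟨fun e => h.zero Subset.rfl (this.2 (e ▸ h.cl)),
        fun e => h.zero Subset.rfl (this.1 (e ▸ h.cl))⟩
  · rintro ⟨g, hg, ho⟩
    let F : ℝ → ℝ := fun r => if r < 0 then r else ρ (g (invFun ρ r))
    have f1 : ∀ r ∈ R, F r = r := fun r hr => if_pos (h.neg hr)
    have f2 : ∀ t, F (ρ t) = ρ (g t) := fun t => by
      simp only [F, if_neg (not_lt.2 (ρ_mem t).1), hi t]
    refine ⟨_, IsC.emb (f := F) ⟨?_, fun x hx M hM => ?_⟩⟩
    · rintro r (hr | ⟨t, ht, rfl⟩)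
      · exact Or.inl ((f1 r hr).symm ▸ hr)
      · exact Or.inr ⟨_, hg.1 ht, (f2 t).symm⟩
    · obtain ⟨M1, M2, h1, h2, rfl⟩ : ∃ M1 M2, M1 ⊆ R ∧ M2 ⊆ X ∧ M = M1 ∪ ρ '' M2 :=
        ⟨M ∩ R, X ∩ ρ ⁻¹' M, inter_subset_right, inter_subset_left, by
          rw [image_inter_preimage, inter_comm _ M, ← inter_union_distrib_left,
            inter_eq_left.2 hM]⟩
      rw [image_union, (image_congr fun a ha => f1 a (h1 ha)).trans (image_id M1), image_image,
        image_congr fun a _ => f2 a, ← image_image ρ g, closure_union, closure_union]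
      rcases hx with hx | ⟨t, ht, rfl⟩
      · rw [f1 x hx]
        exact or_congr Iff.rfl (iff_of_false (fun e => (h.neg hx).not_ge (cl_pos e))
          fun e => (h.neg hx).not_ge (cl_pos e))
      · rw [f2]
        refine or_congr ⟨fun e => ?_, fun e => ?_⟩ ?_
        · have := h.zero h1 e
          rw [(ho t ht).2 this]; exact this ▸ e
        · have := h.zero h1 e
          rw [(ho t ht).1 this]; exact this ▸ e
        · show ρ t ∈ _ ↔ ρ (g t) ∈ _
          rw [cl_ρ, cl_ρ, hg.2 t ht _ h2]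

lemma Rg.cv (hR : Rg R) (h : Cv' X Y) :
    (ER (R ∪ ρ '' X) (R ∪ ρ '' Y) ∧ ¬ ER (R ∪ ρ '' Y) (R ∪ ρ '' X)) ∧
    ¬ ∃ G : Set ℝ, (ER (R ∪ ρ '' X) G ∧ ¬ ER G (R ∪ ρ '' X)) ∧ ER G (R ∪ ρ '' Y) ∧
      ¬ ER (R ∪ ρ '' Y) G := by
  refine ⟨⟨hR.iff.2 h.1, fun e => h.2.1 (hR.iff.1 e)⟩, ?_⟩
  rintro ⟨G, ⟨a, b⟩, ⟨f, hf⟩, d⟩
  have hf' : IsEmbedding (Subtype.val ∘ f) := IsEmbedding.subtypeVal.comp hf
  have hs : range (Subtype.val ∘ f) ⊆ R ∪ ρ '' Y := by
    rintro _ ⟨x, rfl⟩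
    exact (f x).2
  have e0 : ER G (range (Subtype.val ∘ f)) := ⟨_, hf'.toHomeomorph.isEmbedding⟩
  obtain ⟨F, hF⟩ := er_isc (a.trans e0)
  have e : range (Subtype.val ∘ f) = R ∪ ρ '' (Y ∩ ρ ⁻¹' range (Subtype.val ∘ f)) := by
    rw [image_inter_preimage]
    refine Subset.antisymm (fun r hr => (hs hr).imp id fun h => ⟨h, hr⟩)
      (union_subset (fun r hr => ?_) inter_subset_right)
    exact hR.fx hF hs r hr ▸ hF.1 (Or.inl hr)
  have e1 : ER G (R ∪ ρ '' (Y ∩ ρ ⁻¹' range (Subtype.val ∘ f))) := e ▸ e0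
  have e2 : ER (R ∪ ρ '' (Y ∩ ρ ⁻¹' range (Subtype.val ∘ f))) G :=
    e ▸ ⟨_, hf'.toHomeomorph.symm.isEmbedding⟩
  rcases h.2.2 _ inter_subset_left (hR.iff.1 (a.trans e1)) with g | g
  · exact b (e1.trans (hR.iff.2 g))
  · exact d ((hR.iff.2 g).trans e2)

end Pool.Agent.H.MP_fe23ac_gt
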